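import Pool.Agent.H419.AC.Fin
import Pool.Agent.H419.AC.NILM
import Pool.Agent.H419.MK.Sum2

/-!
# Malle's conjecture for `C₂ ≀ H` with acceptable local conditions at all primes

`H` is a finite group with at least two elements which has a solvable normal subgroup `S` such that
`H / S` is trivial or has a faithful transitive action on `u` points, `4 u ^ 2 < 3 |H / S|`; for
example any nontrivial solvable group and any symmetric group. The group `H` acts on itself by
multiplication, and `G = C₂ ≀ H` acts on `H × {0, 1}`, of degree `n = 2 |H|`. Let `K` be a number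
field, and for each prime `𝔭` of `K` let a condition on the `𝓞_K`-algebra `𝓞_L / 𝔭 𝓞_L` be given, such
that, for all but finitely many `𝔭`, the condition holds if the nilradical has at most `N 𝔭` elements
(the discriminant is not divisible by `𝔭 ^ 2`). The number of the fields `L` counted in
`N_{n,K}(X; G)` which satisfy all these (infinitely many) conditions is `c X + o(X)`, and `c > 0` if
and only if there is one such field. In particular the number of the fields which are at most simply
ramified at all primes (those with squarefree discriminant) is `c X + o(X)`, and `c > 0` if and only if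
`K` has a Galois extension with group `H` which is unramified at all primes.
-/

set_option autoImplicit false

open Filter NumberField

namespace Pool.Agent.Results.MP_af4c59_nt.AcceptableConditions

/-- `G ≤ S_n` is, up to a bijection `f` of `{1, ..., n}` with `H × {0, 1}`, the wreath product
`C₂ ≀ H`: it consists of all permutations `π` for which there is `h ∈ H` such that `π` maps the block
`{x} × {0, 1}` to the block `{h x} × {0, 1}`, for all `x ∈ H`. -/
def IsC2Wreath (H : Type) [Group H] {n : ℕ} (G : Subgroup (Equiv.Perm (Fin n))) : Prop :=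
  ∃ f : Fin n ≃ H × Bool, ∀ π : Equiv.Perm (Fin n), π ∈ G ↔ ∃ h : H, ∀ i, (f (π i)).1 = h * (f i).1

/-- `H` has a solvable normal subgroup `S` such that `H / S` is trivial or has a faithful transitive
action on `u` points (the cosets of `U`) with `4 u ^ 2 < 3 |H / S|`. -/
def IsAdmissible (H : Type) [Group H] : Prop :=
  ∃ (S : Subgroup H) (_ : S.Normal), Group.IsSolvable S ∧
    (S = ⊤ ∨ ∃ U : Subgroup (H ⧸ S), U.normalCore = ⊥ ∧
      4 * U.index ^ 2 < 3 * Nat.card (H ⧸ S))

/-- `M / K` is a finite Galois extension with group isomorphic to `H`. -/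
def IsExt (K : Type) [Field K] (H : Type) [Group H]
    (M : IntermediateField K (AlgebraicClosure K)) : Prop :=
  FiniteDimensional K M ∧ IsGalois K M ∧ Nonempty ((M ≃ₐ[K] M) ≃* H)

/-- The fields `L` between `K` and its algebraic closure, of degree `n` over `K`, whose Galois group,
acting on the embeddings, is `G` (up to numbering), and whose relative discriminant has norm at most
`X` (that is, `|d_L| ≤ X |d_K| ^ n`). -/
def Ext (K : Type) [Field K] [NumberField K] (n : ℕ) (G : Subgroup (Equiv.Perm (Fin n)))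
    (X : ℝ) : Set (IntermediateField K (AlgebraicClosure K)) :=
  {L | Module.finrank K L = n ∧
    (∃ e : (L →ₐ[K] AlgebraicClosure K) ≃ Fin n, ∀ π : Equiv.Perm (Fin n),
      π ∈ G ↔ ∃ σ : AlgebraicClosure K ≃ₐ[K] AlgebraicClosure K,
        ∀ φ : L →ₐ[K] AlgebraicClosure K, e (σ.toAlgHom.comp φ) = π (e φ)) ∧
    ∃ h : NumberField L,
      ((|@NumberField.discr L _ h| : ℤ) : ℝ) ≤ X * ((|NumberField.discr K| : ℤ) : ℝ) ^ n}

/-- The `𝓞_K`-algebra `𝓞_L / 𝔭 𝓞_L`. -/
abbrev Loc (K : Type) [Field K] (L : Type) [Field L] [Algebra K L] (𝔭 : Ideal (𝓞 K)) : Type :=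
  𝓞 L ⧸ 𝔭.map (algebraMap (𝓞 K) (𝓞 L))

/-- A system of local conditions: for each prime `𝔭` of `K` a property of algebras over `𝓞_K`. -/
abbrev LocalSystem (K : Type) [Field K] : Type 1 :=
  Ideal (𝓞 K) → ∀ (R : Type) [CommRing R] [Algebra (𝓞 K) R], Prop

/-- The conditions depend on the algebras only up to isomorphism. -/
def IsInvariant (K : Type) [Field K] (P : LocalSystem K) : Prop :=
  ∀ (𝔭 : Ideal (𝓞 K)) (R R' : Type) [CommRing R] [CommRing R'] [Algebra (𝓞 K) R]
    [Algebra (𝓞 K) R'], (R ≃ₐ[𝓞 K] R') → P 𝔭 R → P 𝔭 R'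

/-- For all but finitely many primes `𝔭` of `K` the condition at `𝔭` holds for all finite algebras
whose nilradical has at most `N 𝔭` elements. -/
def IsAcceptable (K : Type) [Field K] [NumberField K] (P : LocalSystem K) : Prop :=
  ∃ S₀ : Set (Ideal (𝓞 K)), S₀.Finite ∧ ∀ 𝔭 : Ideal (𝓞 K), 𝔭.IsPrime → 𝔭 ≠ ⊥ → 𝔭 ∉ S₀ →
    ∀ (R : Type) [CommRing R] [Algebra (𝓞 K) R], Finite R →
      Nat.card (nilradical R) ≤ Ideal.absNorm 𝔭 → P 𝔭 R

/-- `𝓞_L / 𝔭 𝓞_L` satisfies the condition at `𝔭`, for all primes `𝔭` of `K`. -/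
def Satisfies (K : Type) [Field K] (P : LocalSystem K) (L : Type) [Field L] [Algebra K L] : Prop :=
  ∀ 𝔭 : Ideal (𝓞 K), 𝔭.IsPrime → 𝔭 ≠ ⊥ → P 𝔭 (Loc K L 𝔭)

/-- `(𝓞_M / 𝔭 𝓞_M)²` satisfies the condition at `𝔭`, for all primes `𝔭` of `K`. -/
def SplitSatisfies (K : Type) [Field K] (P : LocalSystem K) (M : Type) [Field M] [Algebra K M] :
    Prop :=
  ∀ 𝔭 : Ideal (𝓞 K), 𝔭.IsPrime → 𝔭 ≠ ⊥ → P 𝔭 (Loc K M 𝔭 × Loc K M 𝔭)

/-- The number of the fields in `Ext K n G X` which satisfy all conditions. -/
noncomputable def NLoc (K : Type) [Field K] [NumberField K] (n : ℕ)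
    (G : Subgroup (Equiv.Perm (Fin n))) (P : LocalSystem K) (X : ℝ) : ℕ :=
  Set.ncard {L : IntermediateField K (AlgebraicClosure K) | L ∈ Ext K n G X ∧ Satisfies K P L}

/-- The number of the fields in `Ext K n G X` which satisfy all conditions is `c X + o(X)`, and
`c > 0` if and only if there is at least one such field (with any discriminant), and if and only if
for some Galois extension `M` of `K` with group `H` there is a quadratic extension `L` of `M` (with any
group over `K`) which satisfies all conditions, or `(𝓞_M / 𝔭 𝓞_M)²` satisfies the condition at `𝔭` for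
all `𝔭`. If `c > 0` the weak form of Malle's conjecture holds for these fields. -/
def LocalLaw (K : Type) [Field K] [NumberField K] (H : Type) [Group H] (n : ℕ)
    (G : Subgroup (Equiv.Perm (Fin n))) (P : LocalSystem K) (c : ℝ) : Prop :=
  0 ≤ c ∧ Tendsto (fun X : ℝ => (NLoc K n G P X : ℝ) / X) atTop (nhds c) ∧
    (0 < c ↔ ∃ X : ℝ, ∃ L ∈ Ext K n G X, Satisfies K P L) ∧
    (0 < c ↔ ∃ M : IntermediateField K (AlgebraicClosure K), IsExt K H M ∧
      ((∃ L : IntermediateField K (AlgebraicClosure K), M ≤ L ∧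
        Module.finrank K L = 2 * Module.finrank K M ∧ Satisfies K P L) ∨ SplitSatisfies K P M)) ∧
    (0 < c → ∃ c₁ : ℝ, 0 < c₁ ∧ ∃ c₂ : ℝ, 0 < c₂ ∧ ∃ X₀ : ℝ, ∀ X : ℝ, X₀ ≤ X →
      c₁ * X ≤ (NLoc K n G P X : ℝ) ∧ (NLoc K n G P X : ℝ) ≤ c₂ * X)

/-- The condition that the nilradical has at most `N 𝔭` elements, and that it is zero if `𝔭` divides
`2`. (For `𝓞_L / 𝔭 𝓞_L` this says that the relative discriminant is not divisible by `𝔭 ^ 2`.) -/
def Simple (K : Type) [Field K] [NumberField K] : LocalSystem K :=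
  fun 𝔭 R _ _ => Nat.card (nilradical R) ≤ Ideal.absNorm 𝔭 ∧ ((2 : 𝓞 K) ∈ 𝔭 → IsReduced R)

/-- `M / K` is unramified at all primes `𝔭` of `K`: the rings `𝓞_M / 𝔭 𝓞_M` are reduced. -/
def IsUnramified (K : Type) [Field K] (M : Type) [Field M] [Algebra K M] : Prop :=
  ∀ 𝔭 : Ideal (𝓞 K), 𝔭.IsPrime → 𝔭 ≠ ⊥ → IsReduced (Loc K M 𝔭)

theorem isAdmissible_of_solvable (H : Type) [Group H] (h : Group.IsSolvable H) :
    IsAdmissible H :=
  ⟨⊤, inferInstance, inferInstance, Or.inl rfl⟩

theorem isAdmissible_of_coreFree (H : Type) [Group H] (U : Subgroup H)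
    (hU : U.normalCore = ⊥) (hc : 4 * U.index ^ 2 < 3 * Nat.card H) : IsAdmissible H := by
  let e : H ⧸ (⊥ : Subgroup H) ≃* H := QuotientGroup.quotientBot
  refine ⟨⊥, inferInstance, inferInstance, Or.inr ⟨U.comap e.toMonoidHom, ?_, ?_⟩⟩
  · rw [eq_bot_iff]
    intro x hx
    have h1 : e x ∈ U.normalCore := by
      intro b
      have h2 := hx (e.symm b)
      have h3 : e (e.symm b * x * (e.symm b)⁻¹) ∈ U := h2
      simpa using h3
    rw [hU, Subgroup.mem_bot] at h1
    rw [Subgroup.mem_bot]
    exact (map_eq_one_iff e e.injective).1 h1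
  · have h1 : (U.comap e.toMonoidHom).index = U.index :=
      Subgroup.index_comap_of_surjective U e.surjective
    rw [h1, Nat.card_congr e.toEquiv]
    exact hc

theorem isAdmissible_perm (m : ℕ) (hm : 5 ≤ m) : IsAdmissible (Equiv.Perm (Fin m)) := by
  obtain ⟨k, rfl⟩ : ∃ k, m = k + 5 := ⟨m - 5, by omega⟩
  let U : Subgroup (Equiv.Perm (Fin (k + 5))) := MulAction.stabilizer _ (0 : Fin (k + 5))
  have hS : U.index = k + 5 := by
    change (MulAction.stabilizer (Equiv.Perm (Fin (k + 5))) (0 : Fin (k + 5))).index = k + 5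
    rw [MulAction.index_stabilizer, MulAction.orbit_eq_univ]
    simp
  refine isAdmissible_of_coreFree _ U ?_ ?_
  · rw [eq_bot_iff]
    intro π h
    have h1 : ∀ x : Equiv.Perm (Fin (k + 5)), x * π * x⁻¹ ∈ U := h
    rw [Subgroup.mem_bot]
    ext i
    have h2 := h1 (Equiv.swap 0 i)
    have h3 : (Equiv.swap 0 i * π * (Equiv.swap 0 i)⁻¹) (0 : Fin (k + 5)) = 0 := h2
    rw [Equiv.Perm.mul_apply, Equiv.Perm.mul_apply, Equiv.swap_inv, Equiv.swap_apply_left] at h3
    have h4 := congrArg (Equiv.swap 0 i) h3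
    rw [Equiv.swap_apply_self, Equiv.swap_apply_left] at h4
    rw [h4]; rfl
  · rw [hS, Nat.card_perm, Nat.card_fin]
    have hf : (k + 5).factorial = (k + 5) * ((k + 4) * ((k + 3) * (k + 2).factorial)) := by
      simp only [Nat.factorial_succ]
    have h2 : 2 ≤ (k + 2).factorial := by
      have := Nat.self_le_factorial (k + 2)
      omega
    rw [hf]
    have h3 : (k + 5) * ((k + 4) * ((k + 3) * 2)) ≤
        (k + 5) * ((k + 4) * ((k + 3) * (k + 2).factorial)) := by gcongr
    nlinarith

theorem simple_inv (K : Type) [Field K] [NumberField K] : IsInvariant K (Simple K) := by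
  intro 𝔭 R R' _ _ _ _ e h
  obtain ⟨h1, h2⟩ := h
  refine ⟨?_, fun h3 => ?_⟩
  · have h4 : Nat.card (nilradical R') = Nat.card (nilradical R) := by
      refine Nat.card_congr ⟨fun x => ⟨e.symm x.1, ?_⟩, fun x => ⟨e x.1, ?_⟩, fun x => ?_,
        fun x => ?_⟩
      · exact mem_nilradical.2 ((mem_nilradical.1 x.2).map e.symm)
      · exact mem_nilradical.2 ((mem_nilradical.1 x.2).map e)
      · exact Subtype.ext (e.apply_symm_apply x.1)
      · exact Subtype.ext (e.symm_apply_apply x.1)
    rw [h4]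
    exact h1
  · have h5 := h2 h3
    exact isReduced_of_injective e.symm e.symm.injective

theorem simple_acc (K : Type) [Field K] [NumberField K] : IsAcceptable K (Simple K) := by
  refine ⟨_, Pool.Agent.H419.AC.finite_two' K, ?_⟩
  intro 𝔭 hp hp0 h2 R _ _ _ h
  exact ⟨h, fun h3 => absurd ⟨hp, hp0, h3⟩ h2⟩

theorem simple_split (K : Type) [Field K] [NumberField K] (M : Type) [Field M] [Algebra K M]
    (h : IsUnramified K M) : SplitSatisfies K (Simple K) M := by
  intro 𝔭 hp hp0
  have h1 : IsReduced (Loc K M 𝔭) := h 𝔭 hp hp0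
  have h2 : IsReduced (Loc K M 𝔭 × Loc K M 𝔭) := by
    constructor
    rintro ⟨x, y⟩ ⟨k, hk⟩
    have h3 : x ^ k = 0 := congrArg Prod.fst hk
    have h4 : y ^ k = 0 := congrArg Prod.snd hk
    have h5 : x = 0 := h1.eq_zero x ⟨k, h3⟩
    have h6 : y = 0 := h1.eq_zero y ⟨k, h4⟩
    rw [h5, h6]
    rfl
  refine ⟨?_, fun _ => h2⟩
  have h3 : nilradical (Loc K M 𝔭 × Loc K M 𝔭) = ⊥ := nilradical_eq_zero _
  rw [h3]
  have h4 : Nat.card ((⊥ : Ideal (Loc K M 𝔭 × Loc K M 𝔭))) = 1 := Nat.card_unique
  rw [h4, Nat.one_le_iff_ne_zero, Ne, Ideal.absNorm_eq_zero_iff]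
  exact hp0

/-- **Malle's conjecture for `C₂ ≀ H` with acceptable local conditions at all primes.** Solvable groups
and the symmetric groups `S_m` are admissible. Let `H` be an admissible group with at least two
elements, `G = C₂ ≀ H`, of degree `n = 2 |H|`, and `K` a number field.
1. For all acceptable systems of local conditions the number of the fields in `Ext K n G X` which
   satisfy all conditions is `c X + o(X)`, and `c > 0` if and only if there is one such field.
2. The number of the fields in `Ext K n G X` for which the nilradical of `𝓞_L / 𝔭 𝓞_L` has at most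
   `N 𝔭` elements, and is zero if `𝔭` divides `2`, for all primes `𝔭` (that is, with squarefree
   relative discriminant), is `c X + o(X)`, and `c > 0` if and only if `K` has a Galois extension with
   group `H` which is unramified at all primes of `K`. -/
theorem result :
    (∀ (H : Type) [Group H], Group.IsSolvable H → IsAdmissible H) ∧
    (∀ m : ℕ, 5 ≤ m → IsAdmissible (Equiv.Perm (Fin m))) ∧
    ∀ (K : Type) [Field K] [NumberField K] (H : Type) [Group H] [Finite H], 2 ≤ Nat.card H →
      IsAdmissible H → ∀ (n : ℕ) (G : Subgroup (Equiv.Perm (Fin n))), IsC2Wreath H G →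
        (∀ X : ℝ, 0 < X → (Ext K n G X).Finite) ∧
        (∀ P : LocalSystem K, IsInvariant K P → IsAcceptable K P →
          ∃ c : ℝ, LocalLaw K H n G P c) ∧
        ∃ c : ℝ, LocalLaw K H n G (Simple K) c ∧
          (0 < c ↔ ∃ M : IntermediateField K (AlgebraicClosure K), IsExt K H M ∧
            IsUnramified K M) := by
  refine ⟨fun H _ h => isAdmissible_of_solvable H h, isAdmissible_perm, ?_⟩
  intro K _ _ H _ _ h2 hH n G hG
  obtain ⟨s, hs, hsum⟩ := Pool.Agent.H419.MK.sum2 K (AlgebraicClosure K) H hH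
  have hlaw : ∀ P : LocalSystem K, IsInvariant K P → IsAcceptable K P →
      ∃ c : ℝ, LocalLaw K H n G P c := by
    intro P hP hacc
    obtain ⟨-, c, hc0, hlim, h3, h4⟩ := Pool.Agent.H419.AC.coreN K H h2 s hs hsum G hG P hP hacc
    refine ⟨c, hc0, hlim, h3, h4, ?_⟩
    intro hcpos
    have hlim' : Tendsto (fun X : ℝ => (NLoc K n G P X : ℝ) / X) atTop (nhds c) := hlim
    have h3 := hlim'.eventually (Ioo_mem_nhds (show c / 2 < c by linarith)
      (show c < 2 * c by linarith))
    obtain ⟨X₀, hX₀⟩ := eventually_atTop.1 (h3.and (eventually_gt_atTop (0 : ℝ)))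
    refine ⟨c / 2, by positivity, 2 * c, by positivity, X₀, fun X hX => ?_⟩
    obtain ⟨⟨h4, h5⟩, h6⟩ := hX₀ X hX
    rw [lt_div_iff₀ h6] at h4
    rw [div_lt_iff₀ h6] at h5
    exact ⟨h4.le, h5.le⟩
  refine ⟨?_, hlaw, ?_⟩
  · have h := Pool.Agent.H419.AC.coreN K H h2 s hs hsum G hG (fun _ _ _ _ => True)
      (fun _ _ _ _ _ _ _ _ _ => trivial) ⟨∅, Set.finite_empty, fun _ _ _ _ _ _ _ _ _ => trivial⟩
    exact h.1
  · obtain ⟨c, hc⟩ := hlaw (Simple K) (simple_inv K) (simple_acc K)
    refine ⟨c, hc, ?_⟩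
    constructor
    · intro h
      obtain ⟨X, L, hL, hS⟩ := hc.2.2.1.1 h
      have hL' : L ∈ Pool.Agent.TH444.ML.Cnt K G X := hL
      rw [Pool.Agent.TH444.ML.cnt_eq K hG] at hL'
      obtain ⟨M, hM⟩ := (Pool.Agent.TH365.J3099.wrIff K (AlgebraicClosure K) H L).1
        ⟨hL'.1, hL'.2.1⟩
      refine ⟨M, hM.1, ?_⟩
      intro 𝔭 hp hp0
      have hfd : FiniteDimensional K M := hM.1.1
      have hnf : NumberField M := Pool.Agent.TH444.ML.nf_of_fd M
      have hML : M ≤ L := hM.2.1
      have hfdL : FiniteDimensional K L := hM.2.2.1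
      have hnfL : NumberField L := Pool.Agent.TH444.ML.nf_of_fd L
      have hnf2 : NumberField (IntermediateField.extendScalars hML) := hnfL
      have hpos : 0 < Module.finrank K M := Module.finrank_pos
      have hfin : Module.finrank K L = Module.finrank K M *
          Module.finrank M (IntermediateField.extendScalars hML) :=
        (Module.finrank_mul_finrank K M (IntermediateField.extendScalars hML)).symm
      have h2' : Module.finrank M (IntermediateField.extendScalars hML) = 2 := by
        rw [hM.2.2.2.1] at hfin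
        exact (Nat.eq_of_mul_eq_mul_left hpos (by rw [← hfin]; ring))
      by_contra hcon
      exact Pool.Agent.H419.AC.NILM.t_NILM K M (IntermediateField.extendScalars hML) 𝔭 hp hp0 h2'
        hcon (hS 𝔭 hp hp0).1
    · rintro ⟨M, hM, hu⟩
      exact hc.2.2.2.1.2 ⟨M, hM, Or.inr (simple_split K M hu)⟩

end Pool.Agent.Results.MP_af4c59_nt.AcceptableConditions
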