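import Pool.Agent.H419.LT.Sig

/-!
# Malle's conjecture for `C₂ ≀ H` with prescribed signatures

`H` is a finite group with a subgroup `U` which contains no nontrivial normal subgroup of `H` and
with `8 u (u + 1) ≤ |H|`, `u` the index of `U`. The group `H` acts on itself by multiplication, and
`G = C₂ ≀ H` acts on `H × {0, 1}`, of degree `n = 2 |H|`. Let `K` be a number field and `r(v)` a
natural number for every real embedding `v` of `K`. The number of the fields `L` counted in
`N_{n,K}(X; G)` with exactly `r(v)` real embeddings above `v`, for all `v`, is asymptotic to `c X`,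
and it is determined when `c > 0`.
-/

set_option autoImplicit false

open Filter NumberField

namespace Pool.Agent.Results.MP_af4c59_nt.Signatures

/-- `G ≤ S_n` is, up to a bijection `f` of `{1, ..., n}` with `H × {0, 1}`, the wreath product
`C₂ ≀ H`: it consists of all permutations `π` for which there is `h ∈ H` such that `π` maps the block
`{x} × {0, 1}` to the block `{h x} × {0, 1}`, for all `x ∈ H`. -/
def IsC2Wreath (H : Type) [Group H] {n : ℕ} (G : Subgroup (Equiv.Perm (Fin n))) : Prop :=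
  ∃ f : Fin n ≃ H × Bool, ∀ π : Equiv.Perm (Fin n), π ∈ G ↔ ∃ h : H, ∀ i, (f (π i)).1 = h * (f i).1

/-- `H` has a faithful transitive action on `u` points (the cosets of `U`), `8 u (u + 1) ≤ |H|`. -/
def HasSmallAction (H : Type) [Group H] : Prop :=
  ∃ U : Subgroup H, U.normalCore = ⊥ ∧ 8 * U.index * (U.index + 1) ≤ Nat.card H

/-- `M / K` is a finite Galois extension with group isomorphic to `H`. -/
def IsExt (K : Type) [Field K] (H : Type) [Group H]
    (M : IntermediateField K (AlgebraicClosure K)) : Prop :=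
  FiniteDimensional K M ∧ IsGalois K M ∧ Nonempty ((M ≃ₐ[K] M) ≃* H)

/-- The fields `L` between `K` and its algebraic closure, of degree `n` over `K`, whose Galois group,
acting on the embeddings, is `G` (up to numbering), and whose relative discriminant has norm at most
`X` (that is, `|d_L| ≤ X |d_K| ^ n`). -/
def Ext (K : Type) [Field K] [NumberField K] (n : ℕ) (G : Subgroup (Equiv.Perm (Fin n)))
    (X : ℝ) : Set (IntermediateField K (AlgebraicClosure K)) :=
  {L | Module.finrank K L = n ∧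
    (∃ e : (L →ₐ[K] AlgebraicClosure K) ≃ Fin n, ∀ π : Equiv.Perm (Fin n),
      π ∈ G ↔ ∃ σ : AlgebraicClosure K ≃ₐ[K] AlgebraicClosure K,
        ∀ φ : L →ₐ[K] AlgebraicClosure K, e (σ.toAlgHom.comp φ) = π (e φ)) ∧
    ∃ h : NumberField L,
      ((|@NumberField.discr L _ h| : ℤ) : ℝ) ≤ X * ((|NumberField.discr K| : ℤ) : ℝ) ^ n}

/-- The number of the real embeddings of `L` above the real embedding `v` of `K`. -/
noncomputable def realAbove (K L : Type) [Field K] [Field L] [Algebra K L] (v : K →+* ℝ) : ℕ :=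
  Nat.card {φ : L →+* ℝ // φ.comp (algebraMap K L) = v}

/-- The number of the fields in `Ext K n G X` which have exactly `r v` real embeddings above `v`,
for every real embedding `v` of `K`. -/
noncomputable def NSig (K : Type) [Field K] [NumberField K] (n : ℕ)
    (G : Subgroup (Equiv.Perm (Fin n))) (r : (K →+* ℝ) → ℕ) (X : ℝ) : ℕ :=
  Set.ncard {L : IntermediateField K (AlgebraicClosure K) |
    L ∈ Ext K n G X ∧ ∀ v : K →+* ℝ, realAbove K L v = r v}

/-- **Malle's conjecture for `C₂ ≀ H` with prescribed signature.** Let `G = C₂ ≀ H`, of degree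
`n = 2 |H|`, `K` a number field and `r(v)` a natural number for every real embedding `v` of `K`. The
number `NSig K n G r X` is finite for all `X`, and there is `c ≥ 0` such that
1. `NSig K n G r X / X → c` for `X → ∞`;
2. `c > 0` if and only if all `r(v)` are even and at most `n`, and there is a Galois extension `M` of
   `K` with group `H` such that each `v` with `r(v) ≠ 0` extends to a real embedding of `M`;
3. `c > 0` if and only if there is at least one such field `L` (with any discriminant);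
4. if `c > 0`, then `c₁ X ≤ NSig K n G r X ≤ c₂ X` for all large `X`, with `c₁, c₂ > 0`.
In particular, for `r = 0` (`L` totally complex), `c > 0` if and only if `H` occurs over `K`. -/
theorem result (K : Type) [Field K] [NumberField K] (H : Type) [Group H] [Finite H]
    (hH : HasSmallAction H) {n : ℕ} {G : Subgroup (Equiv.Perm (Fin n))} (hG : IsC2Wreath H G)
    (r : (K →+* ℝ) → ℕ) :
    (∀ X : ℝ, 0 < X → (Ext K n G X).Finite) ∧
    ∃ c : ℝ, 0 ≤ c ∧
      Tendsto (fun X : ℝ => (NSig K n G r X : ℝ) / X) atTop (nhds c) ∧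
      (0 < c ↔ (∀ v, Even (r v) ∧ r v ≤ n) ∧
        ∃ M : IntermediateField K (AlgebraicClosure K), IsExt K H M ∧
          ∀ v : K →+* ℝ, r v ≠ 0 → ∃ σ : M →+* ℝ, σ.comp (algebraMap K M) = v) ∧
      (0 < c ↔ ∃ X : ℝ, ∃ L ∈ Ext K n G X, ∀ v : K →+* ℝ, realAbove K L v = r v) ∧
      (0 < c → ∃ c₁ : ℝ, 0 < c₁ ∧ ∃ c₂ : ℝ, 0 < c₂ ∧ ∃ X₀ : ℝ, ∀ X : ℝ, X₀ ≤ X →
        c₁ * X ≤ (NSig K n G r X : ℝ) ∧ (NSig K n G r X : ℝ) ≤ c₂ * X) := by
  obtain ⟨U, hU, hc⟩ := hH
  have h2 : 2 ≤ Nat.card H := by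
    have h1 : U.index ≠ 0 := Subgroup.index_ne_zero_of_finite
    have h3 : 1 ≤ U.index := Nat.one_le_iff_ne_zero.2 h1
    nlinarith
  have hn : n = 2 * Nat.card H := Pool.Agent.TH444.ML.c2wr_n hG
  have hd : 0 < ((|discr K| : ℤ) : ℝ) ^ n := by
    have : (0 : ℤ) < |discr K| := abs_pos.2 (discr_ne_zero K)
    have : (0 : ℝ) < ((|discr K| : ℤ) : ℝ) := by exact_mod_cast this
    positivity
  obtain ⟨hfin, c, hc0, hlim, hiff⟩ := Pool.Agent.H419.LT.asymp_sig K (AlgebraicClosure K) H h2
    (Pool.Agent.TH444.ML.rest.fewGal K (AlgebraicClosure K) H U hU hc) r _ hd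
  have hcnt : ∀ X : ℝ, Ext K n G X = Pool.Agent.TH444.ML.TT K (AlgebraicClosure K) H
      (X * ((|discr K| : ℤ) : ℝ) ^ n) := fun X => Pool.Agent.TH444.ML.cnt_eq K hG X
  have hset : ∀ X : ℝ, NSig K n G r X = Set.ncard {L : IntermediateField K (AlgebraicClosure K) |
      L ∈ Pool.Agent.TH444.ML.TT K (AlgebraicClosure K) H (X * ((|discr K| : ℤ) : ℝ) ^ n) ∧
        ∀ v : K →+* ℝ, Pool.Agent.H419.LT.rl K L v = r v} := by
    intro X
    unfold NSig
    rw [hcnt X]
    rfl
  have hlim' : Tendsto (fun X : ℝ => (NSig K n G r X : ℝ) / X) atTop (nhds c) := by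
    refine hlim.congr fun X => ?_
    rw [hset X]
  refine ⟨fun X hX => by rw [hcnt X]; exact hfin X hX, c, hc0, hlim', ?_, ?_, ?_⟩
  · rw [hiff]
    constructor
    · rintro ⟨M, hM, h⟩
      exact ⟨fun v => ⟨(h v).1, by rw [hn]; exact (h v).2.1⟩, M, hM, fun v => (h v).2.2⟩
    · rintro ⟨h, M, hM, h'⟩
      exact ⟨M, hM, fun v => ⟨(h v).1, by rw [← hn]; exact (h v).2, h' v⟩⟩
  · constructor
    · intro h
      obtain ⟨X, hX⟩ := (hlim'.eventually (lt_mem_nhds h)).exists
      have hne : {L : IntermediateField K (AlgebraicClosure K) |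
          L ∈ Ext K n G X ∧ ∀ v : K →+* ℝ, realAbove K L v = r v}.Nonempty := by
        by_contra hcon
        rw [Set.not_nonempty_iff_eq_empty] at hcon
        unfold NSig at hX
        rw [hcon, Set.ncard_empty, Nat.cast_zero, zero_div] at hX
        exact lt_irrefl _ hX
      obtain ⟨L, h3, h4⟩ := hne
      exact ⟨X, L, h3, h4⟩
    · rintro ⟨X, L, hL, hT⟩
      rw [hcnt X] at hL
      rw [hiff]
      obtain ⟨M, hM⟩ := (Pool.Agent.TH365.J3099.wrIff K (AlgebraicClosure K) H L).1
        ⟨hL.1, hL.2.1⟩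
      exact ⟨M, hM.1, Pool.Agent.H419.LT.crit_of_quad r hM.1 hM.2.1 hM.2.2.2.1 hT⟩
  · intro hcpos
    have h3 := hlim'.eventually (Ioo_mem_nhds (show c / 2 < c by linarith)
      (show c < 2 * c by linarith))
    obtain ⟨X₀, hX₀⟩ := eventually_atTop.1 (h3.and (eventually_gt_atTop (0 : ℝ)))
    refine ⟨c / 2, by positivity, 2 * c, by positivity, X₀, fun X hX => ?_⟩
    obtain ⟨⟨h4, h5⟩, h6⟩ := hX₀ X hX
    rw [lt_div_iff₀ h6] at h4
    rw [div_lt_iff₀ h6] at h5
    exact ⟨h4.le, h5.le⟩

end Pool.Agent.Results.MP_af4c59_nt.Signatures
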